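import Mathlib
import Pool.Agent.H33CD.Rad
import Pool.Agent.Results.MP_8dbee4_ag.AllPrimes

/-!
# MP_8dbee4_ag: a common divisor of the degrees of the curves, for all degree tuples

Let `X ⊆ ℙ^(n+r)` be a very general complete intersection of degrees `d_1, …, d_r`, `dim X = n ≥ 1`, and
`D = d_1 ⋯ d_r`. The question is whether `D` divides the degrees of all curves on `X` if all `d_i` are
large. We show that for EVERY degree tuple there is a number `Q` which divides the degrees of all curves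
on `X`, with

1. `D ≤ n ^ (4 n³) rad(D) ^ (2 n - 2) Q ^ (2 n - 1)`, where `rad(D)` is the product of the primes dividing
   `D`, and `D ≤ rad(D) ^ (n - 1) Q ^ n` if no `d_i` is divisible by a prime `p ≤ n`;
2. `Q ≥ D ^ ((1 - ε) / (2 n - 1))` if `2 ≤ d_i ≤ M` for all `i` and `r ≥ 6 (n⁴ + n M) / ε`, and
   `Q ≥ D ^ ((1 - ε) / n)` if moreover no `d_i` is divisible by a prime `p ≤ n`.

So for all tuples of degrees up to a small multiple of `r` (without any exceptions) the degrees of all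
curves are divisible by a fixed power of the conjectured divisor `D`, uniformly in the dimension
`n ≤ c r ^ (1/4)`.

The starting results of this page are about the degree tuples whose product is divisible by high powers of
given primes (`AllPrimes`, which we use), and about almost all degree tuples (`AlmostAllDegrees`).
-/

set_option autoImplicit false

namespace Pool.Agent.Results.MP_8dbee4_ag.AllDegreeTuples

/-- the Hilbert function of the ideal `I` of `ℂ[x_0, …, x_m]` -/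
noncomputable def hilbert {m : ℕ} (I : Ideal (MvPolynomial (Fin (m + 1)) ℂ)) (k : ℕ) : ℕ :=
  Module.finrank ℂ (Submodule.map (Ideal.Quotient.mkₐ ℂ I).toLinearMap
    (MvPolynomial.homogeneousSubmodule (Fin (m + 1)) ℂ k))

/-- `I` is the ideal of an integral curve in `ℙ^m`: a homogeneous prime ideal with `dim ℂ[x] / I = 2` -/
def IsCurve {m : ℕ} (I : Ideal (MvPolynomial (Fin (m + 1)) ℂ)) : Prop :=
  (∀ p ∈ I, ∀ k : ℕ, MvPolynomial.homogeneousComponent k p ∈ I) ∧ I.IsPrime ∧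
    ringKrullDim (MvPolynomial (Fin (m + 1)) ℂ ⧸ I) = 2

/-- `Q` divides the degree of the curve `I`: it divides the difference of the values of the Hilbert
function at `k + 1` and at `k` for all large `k` -/
def DividesDegree {m : ℕ} (Q : ℕ) (I : Ideal (MvPolynomial (Fin (m + 1)) ℂ)) : Prop :=
  ∃ K : ℕ, ∀ k : ℕ, K ≤ k → (Q : ℤ) ∣ (hilbert I (k + 1) : ℤ) - (hilbert I k : ℤ)

/-- The number `Q` divides the degree of every curve on a very general complete intersection of degrees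
`d_1, …, d_r` in `ℙ^(n+r)` over `ℂ`: there are countably many nonzero polynomials `bad j` in the
coefficients of `r` forms of these degrees such that for all forms `f_1, …, f_r` at which no `bad j`
vanishes `Q` divides the degree of every integral curve on `f_1 = ⋯ = f_r = 0`. -/
def DividesCurveDegrees (n r : ℕ) (d : Fin r → ℕ) (Q : ℕ) : Prop :=
  ∃ bad : ℕ → MvPolynomial (Σ i : Fin r, {μ : Fin (n + r + 1) →₀ ℕ // μ.degree = d i}) ℂ,
    (∀ j, bad j ≠ 0) ∧
    ∀ f : Fin r → MvPolynomial (Fin (n + r + 1)) ℂ,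
      (∀ i, f i ∈ MvPolynomial.homogeneousSubmodule (Fin (n + r + 1)) ℂ (d i)) →
      (∀ j, MvPolynomial.eval (fun x => MvPolynomial.coeff x.2.1 (f x.1)) (bad j) ≠ 0) →
      ∀ I : Ideal (MvPolynomial (Fin (n + r + 1)) ℂ), IsCurve I → (∀ i, f i ∈ I) →
        DividesDegree Q I

/-- the product of the primes dividing `D` -/
def rad (D : ℕ) : ℕ := ∏ p ∈ D.primeFactors, p

/-- no prime `p ≤ n` divides one of the `d i` -/
def NoSmallPrimes (n : ℕ) {r : ℕ} (d : Fin r → ℕ) : Prop :=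
  ∀ p : ℕ, p.Prime → ∀ i, p ∣ d i → n < p

/-- the real form of the estimate -/
theorem real_form {D A m : ℕ} {Q : ℕ} {ε : ℝ} (hD : 0 < D) (hA : 0 < A)
    (hle : D ≤ A * Q ^ m) (hlog : Real.log A ≤ ε * Real.log D) :
    (D : ℝ) ^ (1 - ε) ≤ (Q : ℝ) ^ m := by
  have hD0 : (0 : ℝ) < D := by exact_mod_cast hD
  have hA0 : (0 : ℝ) < A := by exact_mod_cast hA
  have h1 : (A : ℝ) ≤ (D : ℝ) ^ ε := by
    rw [← Real.exp_log hA0, Real.rpow_def_of_pos hD0]
    exact Real.exp_le_exp.2 (by rw [mul_comm]; exact hlog)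
  have h2 : (D : ℝ) ≤ A * (Q : ℝ) ^ m := by exact_mod_cast hle
  have h3 : (0 : ℝ) < (D : ℝ) ^ ε := Real.rpow_pos_of_pos hD0 _
  rw [Real.rpow_sub hD0, Real.rpow_one, div_le_iff₀ h3, mul_comm]
  exact h2.trans (mul_le_mul_of_nonneg_right h1 (by positivity))

theorem log_bounds {n M r : ℕ} {ε : ℝ} (hn : 1 ≤ n) {d : Fin r → ℕ}
    (hd : ∀ i, 2 ≤ d i ∧ d i ≤ M) (hr : 6 * ((n : ℝ) ^ 4 + n * M) ≤ ε * r) (hε : 0 < ε) :
    4 * ((n : ℝ) ^ 4 + n * M) ≤ ε * Real.log ((∏ i, d i : ℕ) : ℝ) := by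
  have h1 : (2 : ℝ) ^ r ≤ ((∏ i, d i : ℕ) : ℝ) := by
    have h2 : 2 ^ r ≤ ∏ i, d i := by
      calc 2 ^ r = ∏ _i : Fin r, 2 := by simp
        _ ≤ ∏ i, d i := Finset.prod_le_prod' fun i _ => (hd i).1
    exact_mod_cast h2
  have h3 : (r : ℝ) * Real.log 2 ≤ Real.log ((∏ i, d i : ℕ) : ℝ) := by
    rw [← Real.log_pow]
    exact Real.log_le_log (by positivity) h1
  have h4 : (2 / 3 : ℝ) ≤ Real.log 2 := by
    have := Real.log_two_gt_d9
    linarith
  have h5 : (0 : ℝ) ≤ r := Nat.cast_nonneg r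
  have h6 : (r : ℝ) * (2 / 3) ≤ Real.log ((∏ i, d i : ℕ) : ℝ) :=
    (mul_le_mul_of_nonneg_left h4 h5).trans h3
  have h7 := mul_le_mul_of_nonneg_left h6 hε.le
  nlinarith

theorem log_const {n M R : ℕ} (hn : 1 ≤ n) (hR0 : 0 < R) (hR : R ≤ 4 ^ M) :
    Real.log ((n ^ (4 * n ^ 3) * R ^ (2 * n - 2) : ℕ) : ℝ) ≤ 4 * ((n : ℝ) ^ 4 + n * M) := by
  have hn0 : (0 : ℝ) < n := by exact_mod_cast hn
  have hR0' : (0 : ℝ) < R := by exact_mod_cast hR0
  have h1 : Real.log n ≤ n := (Real.log_le_sub_one_of_pos hn0).trans (by linarith)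
  have h2 : Real.log R ≤ M * (3 / 2) := by
    have h3 : (R : ℝ) ≤ (4 : ℝ) ^ M := by exact_mod_cast hR
    have h4 : Real.log R ≤ M * Real.log 4 := by
      rw [← Real.log_pow]
      exact Real.log_le_log hR0' h3
    have h5 : Real.log 4 ≤ 3 / 2 := by
      have h6 : Real.log 4 = 2 * Real.log 2 := by
        rw [show (4 : ℝ) = 2 ^ 2 by norm_num, Real.log_pow]
        norm_num
      have := Real.log_two_lt_d9
      rw [h6]
      linarith
    exact h4.trans (mul_le_mul_of_nonneg_left h5 (Nat.cast_nonneg _))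
  have hM0 : (0 : ℝ) ≤ M := Nat.cast_nonneg _
  push_cast
  rw [Real.log_mul (by positivity) (by positivity), Real.log_pow, Real.log_pow]
  have h3 : (((4 * n ^ 3 : ℕ) : ℝ)) * Real.log n ≤ 4 * (n : ℝ) ^ 4 := by
    push_cast
    calc 4 * (n : ℝ) ^ 3 * Real.log n ≤ 4 * (n : ℝ) ^ 3 * n :=
          mul_le_mul_of_nonneg_left h1 (by positivity)
      _ = 4 * (n : ℝ) ^ 4 := by ring
  have h4 : (((2 * n - 2 : ℕ) : ℝ)) * Real.log R ≤ 4 * (n * M) := by
    have h5 : (((2 * n - 2 : ℕ) : ℝ)) ≤ 2 * n := by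
      have : 2 * n - 2 ≤ 2 * n := by omega
      exact_mod_cast this
    calc (((2 * n - 2 : ℕ) : ℝ)) * Real.log R ≤ (((2 * n - 2 : ℕ) : ℝ)) * (M * (3 / 2)) :=
          mul_le_mul_of_nonneg_left h2 (Nat.cast_nonneg _)
      _ ≤ 2 * n * (M * (3 / 2)) := mul_le_mul_of_nonneg_right h5 (by positivity)
      _ ≤ 4 * (n * M) := by nlinarith [mul_nonneg hn0.le hM0]
  linarith

/-- **A common divisor of the degrees of the curves, for all degree tuples.** -/
theorem result (n : ℕ) (hn : 1 ≤ n) (r : ℕ) (d : Fin r → ℕ) (hd : ∀ i, 1 ≤ d i) :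
    ∃ Q : ℕ, DividesCurveDegrees n r d Q ∧
      ∏ i, d i ≤ n ^ (4 * n ^ 3) * rad (∏ i, d i) ^ (2 * n - 2) * Q ^ (2 * n - 1) ∧
      (NoSmallPrimes n d → ∏ i, d i ≤ rad (∏ i, d i) ^ (n - 1) * Q ^ n) ∧
      ∀ (ε : ℝ) (M : ℕ), 0 < ε → (∀ i, 2 ≤ d i ∧ d i ≤ M) → 6 * ((n : ℝ) ^ 4 + n * M) ≤ ε * r →
        ((∏ i, d i : ℕ) : ℝ) ^ (1 - ε) ≤ (Q : ℝ) ^ (2 * n - 1) ∧
        (NoSmallPrimes n d → ((∏ i, d i : ℕ) : ℝ) ^ (1 - ε) ≤ (Q : ℝ) ^ n) := by
  set D := ∏ i, d i with hDd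
  have hD : D ≠ 0 := Finset.prod_ne_zero_iff.2 fun i _ => by have := hd i; omega
  have hrad : rad D = Pool.Agent.H33CD.rad D := rfl
  have hsmall : NoSmallPrimes n d → ∀ p : ℕ, p.Prime → p ∣ D → n < p := by
    intro h p hp hpD
    obtain ⟨i, -, hi⟩ := (hp.prime.dvd_finsetProd_iff _).1 hpD
    exact h p hp i hi
  have hsize := Pool.Agent.H33CD.size hn hD
  refine ⟨Pool.Agent.H33CD.Q n D, ?_, hsize,
    fun h => Pool.Agent.H33CD.size' hn hD (hsmall h), ?_⟩
  · obtain ⟨bad, hbad, hmain⟩ := Pool.Agent.Results.MP_8dbee4_ag.AllPrimes.result n r hn d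
    refine ⟨bad, hbad, fun f hf hfb I hI hfI => ?_⟩
    exact hmain f hf hfb I hI.1 hI.2.1 hI.2.2 hfI 2 (Pool.Agent.H33CD.Q n D) le_rfl
      (Pool.Agent.H33CD.Q_pos n D) (fun p hp _ => hp.two_le)
      (Or.inl fun p hp hpQ => Pool.Agent.H33CD.cond hD p hp hpQ)
  · intro ε M hε hM hr
    have hlog := log_bounds hn hM hr hε
    rw [← hDd] at hlog
    have hradM : Pool.Agent.H33CD.rad D ≤ 4 ^ M := by
      refine Pool.Agent.H33CD.rad_le fun p hp hpD => ?_
      obtain ⟨i, -, hi⟩ := (hp.prime.dvd_finsetProd_iff _).1 hpD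
      exact (Nat.le_of_dvd (by have := hd i; omega) hi).trans (hM i).2
    have hR0 := Pool.Agent.H33CD.rad_pos D
    have hc := log_const hn hR0 hradM
    refine ⟨real_form (Nat.pos_of_ne_zero hD) (by positivity) hsize (hc.trans hlog),
      fun h => ?_⟩
    refine real_form (Nat.pos_of_ne_zero hD) (by positivity)
      (Pool.Agent.H33CD.size' hn hD (hsmall h)) (le_trans ?_ (hc.trans hlog))
    refine Real.log_le_log (by positivity) ?_
    have h1 : Pool.Agent.H33CD.rad D ^ (n - 1) ≤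
        n ^ (4 * n ^ 3) * Pool.Agent.H33CD.rad D ^ (2 * n - 2) := by
      calc Pool.Agent.H33CD.rad D ^ (n - 1) ≤ Pool.Agent.H33CD.rad D ^ (2 * n - 2) :=
            Nat.pow_le_pow_right hR0 (by omega)
        _ = 1 * Pool.Agent.H33CD.rad D ^ (2 * n - 2) := (one_mul _).symm
        _ ≤ _ := Nat.mul_le_mul_right _ (Nat.one_le_pow _ _ (by omega))
    exact_mod_cast h1

end Pool.Agent.Results.MP_8dbee4_ag.AllDegreeTuples
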